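import Pool.Agent.H914R2.DDefs
import Pool.Agent.W552.Defs

/-!
# Specialization of algebraic cycles: definitions
-/

open CategoryTheory AlgebraicGeometry

universe u v u' v'

namespace Pool.Agent.L0h13.SP

open Pool.Agent.H914 Pool.Agent.H914.VarClass Pool.Agent.H914.VarClass.Obj
  Pool.Agent.H281R3.HT

/-- The cycles `z` and `w` on `X` are homologically equivalent. -/
def HomEq {k : Type u} [Field k] {𝒱 : VarClass k} {ops : CycleOps 𝒱}
    (W : WeilCohomology.{u, v} ops) (X : 𝒱.Obj) (z w : X.Cycles) : Prop :=
  W.cl X z = W.cl X w

/-- The variety `X` with the divisor `D` (over one field, with the Weil cohomology `W'`) specializes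
to the variety `Y` with the divisor `E` (over another field, with the Weil cohomology `W`), and `sp`
is the specialization of cycles. In the intended use `X` is the geometric generic fibre and `Y` a
geometric fibre of a smooth projective family with a relative divisor: `sp` respects codimensions,
degrees and products and, as the cohomology of the fibres is the same, two cycles are homologically
equivalent if and only if their specializations are. -/
structure Specializes {K : Type u'} [Field K] {𝒱' : VarClass K} {ops' : CycleOps 𝒱'}
    (W' : WeilCohomology.{u', v'} ops') (X : 𝒱'.Obj) (D : X.Cycles) {k : Type u} [Field k]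
    {𝒱 : VarClass k} {ops : CycleOps 𝒱} (W : WeilCohomology.{u, v} ops) (Y : 𝒱.Obj)
    (E : Y.Cycles) (sp : X.Cycles → Y.Cycles) : Prop where
  dim_eq : Y.dim = X.dim
  isCyc : ∀ j z, X.IsCyc j z → Y.IsCyc j (sp z)
  degree : ∀ z, X.IsCyc X.dim z → Y.V.degCycle (sp z) = X.V.degCycle z
  homEq : ∀ j z w, X.IsCyc j z → X.IsCyc j w → (HomEq W Y (sp z) (sp w) ↔ HomEq W' X z w)
  zero : HomEq W Y (sp 0) 0
  mul : ∀ z w, HomEq W Y (sp (ops'.mul z w)) (ops.mul (sp z) (sp w))
  divisor : HomEq W Y (sp D) E

/-- If `X` with its divisor specializes to `Y` with its divisor, then the standard conjecture of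
Hodge type is true for `X` and, if `X` satisfies the conjecture A of Lefschetz type, homological and
numerical equivalence coincide on `X`. -/
def TrueIfSpecializes {K : Type u'} [Field K] {𝒱' : VarClass K} {ops' : CycleOps 𝒱'}
    (W' : WeilCohomology.{u', v'} ops') (X : Polarized 𝒱') {k : Type u} [Field k]
    {𝒱 : VarClass k} {ops : CycleOps 𝒱} (W : WeilCohomology.{u, v} ops) (Y : Polarized 𝒱) :
    Prop :=
  ∀ sp, Specializes W' X.X X.D W Y.X Y.D sp →
    HodgeType W' X.X X.D ∧ (LefschetzA W' X.X X.D → HomEqNum W' X.X)

end Pool.Agent.L0h13.SP
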