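import Pool.Agent.N179.TL.Defs

/-!
# Varieties with the cohomology of a K3 surface: definitions
-/

set_option autoImplicit false

open CategoryTheory AlgebraicGeometry NumberField

universe u v

namespace Pool.Agent.L0h13.SP

open Pool.Agent.H914 Pool.Agent.H914.VarClass Pool.Agent.H914.VarClass.Obj
  Pool.Agent.H914.WeilCohomology Pool.Agent.H281R3.HT Pool.Agent.W534 Pool.Agent.N179.TL

/-- The vector `x` is an eigenvector of `F`; its eigenvalue `μ` is, up to a root of unity, the
product of `q ^ (n / 2)`, `q = p ^ a`, and of an `e`-th root of a conjugate `σ α` of `α`. -/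
def IsK3Letter {Ω H E : Type*} [Field Ω] [AddCommGroup H] [Module Ω H] [Field E] (α : E)
    (p a n e : ℕ) (F : Module.End Ω H) (x : H) : Prop :=
  ∃ (σ : E →+* Ω) (μ : Ω) (N : ℕ), 0 < N ∧ F x = μ • x ∧
    μ ^ (2 * e * N) = (p : Ω) ^ (a * (n * (e * N))) * σ α ^ (2 * N)

/-- The space is spanned by the subspace `A` and eigenvectors `x` of `F` in the subspace `G`, as in
`IsK3Letter`. -/
def SpannedByLetters {Ω H E : Type*} [Field Ω] [AddCommGroup H] [Module Ω H] [Field E] (α : E)
    (p a n e : ℕ) (A G : Submodule Ω H) (F : Module.End Ω H) : Prop :=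
  A ⊔ Submodule.span Ω {x | x ∈ G ∧ IsK3Letter α p a n e F x} = ⊤

/-- The Frobenius endomorphism on the cohomology of `X`. -/
noncomputable def frobEnd {k : Type u} [Field k] {𝒱 : VarClass k} {ops : CycleOps 𝒱}
    {W : WeilCohomology.{u, v} ops} {p : ℕ} (Φ : FrobSystem W p) (X : 𝒱.Obj) :
    Module.End W.K (W.H X) := (W.map (Φ.Fr X)).toLinearMap

/-- `X` is a K3 surface of finite height `h` over an algebraic closure of the field with `p` elements,
with transcendental part of rank `b`, or a variety with cohomology of the same type: its dimension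
`n` is even, its cohomology is spanned by algebraic classes and by eigenvectors of Frobenius in the
middle degree, the eigenvalues being `q ^ (n / 2)` times conjugates of a number `α` (up to a root of
unity, after an extension of degree `e` of the field of definition, with `q` elements) with the
properties in `IsK3Number`, and the Tate conjecture holds for `X × X` in codimension `n`. -/
structure IsK3Like {k : Type u} [Field k] {𝒱 : VarClass k} {ops : CycleOps 𝒱}
    {W : WeilCohomology.{u, v} ops} {p : ℕ} [Fact p.Prime] (Φ : FrobSystem W p) (X : 𝒱.Obj)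
    (e : ℕ) {E : Type} [Field E] [NumberField E] (α : E) (h b : ℕ) : Prop where
  pos : 0 < e
  even : Even X.dim
  spanned : SpannedByLetters α p (Φ.e X) X.dim e (algSpan W X) (W.gr X X.dim) (frobEnd Φ X)
  tate : TateIn Φ (X.prod X) X.dim
  number : IsK3Number p (e * Φ.e X) α h b

end Pool.Agent.L0h13.SP
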