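import Pool.Agent.L0h13.SP.Main
import Pool.Agent.L0h13.SP.KDefs
import Pool.Agent.N179.HT.Asm

/-!
# Products of polarized varieties
-/

set_option autoImplicit false

open CategoryTheory AlgebraicGeometry NumberField

universe u v

namespace Pool.Agent.L0h13.SP

open Pool.Agent.H914 Pool.Agent.H914.VarClass Pool.Agent.H914.VarClass.Obj
  Pool.Agent.H914.WeilCohomology Pool.Agent.H281R3.HT Pool.Agent.W552 Pool.Agent.W534
  Pool.Agent.N179.TL

variable {k : Type u} [Field k] {𝒱 : VarClass k} {ops : CycleOps 𝒱}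

lemma nest_div (n : ℕ) (P : Fin (n + 1) → Polarized 𝒱) (h : ∀ i, (P i).X.IsCyc 1 (P i).D) :
    (nest ops n P).X.IsCyc 1 (nest ops n P).D := by
  induction n with
  | zero => exact h 0
  | succ n ih =>
    exact SmVar.IsCyc.add (ops.pull_mem _ (h 0)) (ops.pull_mem _ (ih _ fun i => h i.succ))

lemma IsK3Like.isK3Variety {W : WeilCohomology.{u, v} ops} {p : ℕ} [Fact p.Prime]
    {Φ : FrobSystem W p} {X : 𝒱.Obj} {e : ℕ} {E : Type} [Field E] [NumberField E] {α : E}
    {h b : ℕ} (H : IsK3Like Φ X e α h b) : IsK3Variety Φ X e α h b where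
  weil := {
    pos := H.pos
    spanned := by
      rw [eq_top_iff, ← H.spanned]
      refine sup_le_sup le_rfl (Submodule.span_mono ?_)
      rintro x ⟨hx, σ, μ, N, hN, h1, h2⟩
      exact ⟨σ, hx, μ, N, hN, h1, h2⟩
    tate := H.tate }
  even := H.even
  number := H.number

end Pool.Agent.L0h13.SP
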