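import Pool.Agent.L0h13.SP.Defs
import Pool.Agent.W552.Fr

/-!
# Specialization and the standard conjectures of Hodge type and D
-/

open CategoryTheory AlgebraicGeometry

universe u v u' v'

namespace Pool.Agent.L0h13.SP

open Pool.Agent.H914 Pool.Agent.H914.VarClass Pool.Agent.H914.VarClass.Obj
  Pool.Agent.H914.WeilCohomology Pool.Agent.H281R3.HT Pool.Agent.W552

section One

variable {k : Type u} [Field k] {𝒱 : VarClass k} {ops : CycleOps 𝒱}
  {W : WeilCohomology.{u, v} ops} {X : 𝒱.Obj} {D : X.Cycles}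

lemma cl_divPow (i : ℕ) (z : X.Cycles) :
    W.cl X (divPow ops D i z) = W.cl X D ^ i * W.cl X z := by
  induction i with
  | zero => rw [pow_zero, one_mul]; rfl
  | succ i ih =>
    rw [divPow, Function.iterate_succ', Function.comp_apply, W.cl_mul]
    rw [divPow] at ih
    rw [ih, pow_succ', mul_assoc]

lemma divPow_isCyc (hD : X.IsCyc 1 D) {j : ℕ} {z : X.Cycles} (hz : X.IsCyc j z) (i : ℕ) :
    X.IsCyc (i + j) (divPow ops D i z) := by
  induction i with
  | zero => rw [zero_add]; exact hz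
  | succ i ih =>
    rw [divPow, Function.iterate_succ', Function.comp_apply, show i + 1 + j = 1 + (i + j) by ring]
    exact ops.mul_mem hD ih

/-- The class of a divisor commutes with the classes of even degree. -/
lemma cl_comm {j j' : ℕ} {z w : X.Cycles} (hz : X.IsCyc j z) (hw : X.IsCyc j' w) :
    W.cl X z * W.cl X w = W.cl X w * W.cl X z := by
  have h := W.comm (W.cl_mem hz) (W.cl_mem hw)
  rw [h, mul_assoc, pow_mul, neg_one_sq, one_pow, one_smul]

lemma tr_mul_cl {j j' : ℕ} {z w : X.Cycles} (hz : X.IsCyc j z) (hw : X.IsCyc j' w)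
    (h : j + j' = X.dim) :
    W.tr X (W.cl X z * W.cl X w) = (X.V.degCycle (ops.mul z w) : W.K) := by
  rw [← W.cl_mul, W.tr_cl]
  rw [← h]
  exact ops.mul_mem hz hw

/-- **The conjecture D from the conjectures A and of Hodge type.** -/
theorem homEqNum_of_hodgeType (hD : X.IsCyc 1 D) (hA : LefschetzA W X D)
    (hH : HodgeType W X D) : HomEqNum W X := by
  have key : ∀ j, 2 * j ≤ X.dim → ∀ z, X.IsCyc j z →
      (∀ w, X.IsCyc j w → W.tr X (W.cl X z * (W.cl X D ^ (X.dim - 2 * j) * W.cl X w)) = 0) →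
      W.cl X z = 0 := by
    intro j
    induction j with
    | zero =>
      intro hj z hz h0
      by_contra hne
      have hprim : W.cl X (divPow ops D (X.dim - 2 * 0 + 1) z) = 0 := by
        have h1 := W.cl_mem (divPow_isCyc (ops := ops) hD hz (X.dim - 2 * 0 + 1))
        rw [W.gr_eq_bot _ _ (by omega), Submodule.mem_bot] at h1
        exact h1
      have h2 := hH 0 hj z hz hprim hne
      have h3 := h0 z hz
      rw [← cl_divPow, tr_mul_cl hz (divPow_isCyc hD hz _) (by omega)] at h3
      have h4 : X.V.degCycle (ops.mul z (divPow ops D (X.dim - 2 * 0) z)) = 0 := by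
        exact_mod_cast h3
      rw [h4, mul_zero] at h2
      exact lt_irrefl _ h2
    | succ j ih =>
      intro hj z hz h0
      obtain ⟨z₁, hz₁, hz₁'⟩ := hA j (by omega) (divPow ops D (X.dim - 2 * (j + 1) + 1) z) (by
        have h1 := divPow_isCyc (ops := ops) hD hz (X.dim - 2 * (j + 1) + 1)
        rwa [show X.dim - 2 * (j + 1) + 1 + (j + 1) = X.dim - j by omega] at h1)
      have hDz₁ : X.IsCyc (j + 1) (ops.mul D z₁) := by
        rw [add_comm]; exact ops.mul_mem hD hz₁
      have hz₀ : X.IsCyc (j + 1) (z - ops.mul D z₁) := by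
        have h1 := hz.add (hDz₁.smul (-1))
        rwa [neg_one_smul, ← sub_eq_add_neg] at h1
      have hprim : W.cl X (divPow ops D (X.dim - 2 * (j + 1) + 1) (z - ops.mul D z₁)) = 0 := by
        rw [cl_divPow, map_sub, mul_sub, W.cl_mul, ← cl_divPow, ← hz₁', cl_divPow, ← mul_assoc,
          ← pow_succ, show X.dim - 2 * (j + 1) + 1 + 1 = X.dim - 2 * j by omega, sub_self]
      have hprim' : W.cl X D ^ (X.dim - 2 * (j + 1) + 1) * W.cl X (z - ops.mul D z₁) = 0 := by
        rw [← cl_divPow]; exact hprim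
      have hz₀0 : W.cl X (z - ops.mul D z₁) = 0 := by
        by_contra hne
        have h2 := hH (j + 1) hj _ hz₀ hprim hne
        have h3 : W.tr X (W.cl X (z - ops.mul D z₁) *
            (W.cl X D ^ (X.dim - 2 * (j + 1)) * W.cl X (z - ops.mul D z₁))) = 0 := by
          have h4 : W.cl X (z - ops.mul D z₁) = W.cl X z - W.cl X D * W.cl X z₁ := by
            rw [map_sub, W.cl_mul]
          have h5 : W.cl X D * W.cl X z₁ *
              (W.cl X D ^ (X.dim - 2 * (j + 1)) * W.cl X (z - ops.mul D z₁)) = 0 := by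
            rw [cl_comm (W := W) hD hz₁, mul_assoc, ← mul_assoc (W.cl X D), ← pow_succ', hprim',
              mul_zero]
          conv_lhs => rw [h4, sub_mul]
          rw [← h4, h5, sub_zero]
          exact h0 _ hz₀
        rw [← cl_divPow, tr_mul_cl hz₀ (divPow_isCyc hD hz₀ _) (by omega)] at h3
        have h4 : X.V.degCycle (ops.mul (z - ops.mul D z₁)
            (divPow ops D (X.dim - 2 * (j + 1)) (z - ops.mul D z₁))) = 0 := by
          exact_mod_cast h3
        rw [h4, mul_zero] at h2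
        exact lt_irrefl _ h2
      have hzeq : W.cl X z = W.cl X D * W.cl X z₁ := by
        rw [map_sub, W.cl_mul, sub_eq_zero] at hz₀0
        exact hz₀0
      have h1 : W.cl X z₁ = 0 := by
        apply ih (by omega) z₁ hz₁
        intro w hw
        have h2 := h0 (ops.mul D w) (by rw [add_comm]; exact ops.mul_mem hD hw)
        rw [hzeq, W.cl_mul] at h2
        rw [← h2]
        congr 1
        have h3 : W.cl X D * W.cl X z₁ = W.cl X z₁ * W.cl X D := cl_comm hD hz₁
        rw [h3, mul_assoc, ← mul_assoc (W.cl X D ^ _), ← pow_succ, ← mul_assoc (W.cl X D),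
          ← pow_succ', show X.dim - 2 * (j + 1) + 1 + 1 = X.dim - 2 * j by omega]
      rw [hzeq, h1, mul_zero]
  have low : ∀ j, 2 * j ≤ X.dim → ∀ z, X.IsCyc j z →
      (∀ w, X.IsCyc (X.dim - j) w → X.V.degCycle (ops.mul z w) = 0) → W.cl X z = 0 := by
    intro j hj z hz hnum
    apply key j hj z hz
    intro w hw
    have h1 := divPow_isCyc (ops := ops) hD hw (X.dim - 2 * j)
    rw [show X.dim - 2 * j + j = X.dim - j by omega] at h1
    rw [← cl_divPow, tr_mul_cl hz h1 (by omega), hnum _ h1, Rat.cast_zero]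
  intro j hj z hz hnum
  by_cases hj2 : 2 * j ≤ X.dim
  · exact low j hj2 z hz hnum
  · obtain ⟨z', hz', hzz'⟩ := hA (X.dim - j) (by omega) z (by
      rwa [show X.dim - (X.dim - j) = j by omega])
    have h1 : W.cl X z' = 0 := by
      apply key (X.dim - j) (by omega) z' hz'
      intro w hw
      have h2 := tr_mul_cl (W := W) hz hw (by omega)
      rw [hnum w hw, Rat.cast_zero, ← hzz', cl_divPow] at h2
      have h3 : ∀ i : ℕ, W.cl X z' * W.cl X D ^ i = W.cl X D ^ i * W.cl X z' := by
        intro i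
        induction i with
        | zero => rw [pow_zero, mul_one, one_mul]
        | succ i ih =>
          rw [pow_succ, ← mul_assoc, ih, mul_assoc, cl_comm (W := W) hz' hD, ← mul_assoc]
      rw [← h2, ← mul_assoc, h3]
    rw [← hzz', cl_divPow, h1, mul_zero]

end One

section Two

variable {K : Type u'} [Field K] {𝒱' : VarClass K} {ops' : CycleOps 𝒱'}
  {W' : WeilCohomology.{u', v'} ops'} {X : 𝒱'.Obj} {D : X.Cycles} {k : Type u} [Field k]
  {𝒱 : VarClass k} {ops : CycleOps 𝒱} {W : WeilCohomology.{u, v} ops} {Y : 𝒱.Obj}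
  {E : Y.Cycles} {sp : X.Cycles → Y.Cycles}

lemma Specializes.cl_mul (h : Specializes W' X D W Y E sp) (z w : X.Cycles) :
    W.cl Y (sp (ops'.mul z w)) = W.cl Y (sp z) * W.cl Y (sp w) := by
  have h1 : W.cl Y (sp (ops'.mul z w)) = W.cl Y (ops.mul (sp z) (sp w)) := h.mul z w
  rw [h1, W.cl_mul]

lemma Specializes.cl_eq_zero (h : Specializes W' X D W Y E sp) {j : ℕ} {z : X.Cycles}
    (hz : X.IsCyc j z) : W.cl Y (sp z) = 0 ↔ W'.cl X z = 0 := by
  have h1 : W.cl Y (sp z) = W.cl Y (sp 0) ↔ W'.cl X z = W'.cl X 0 :=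
    h.homEq j z 0 hz (SmVar.IsCyc.zero _ _)
  have h2 : W.cl Y (sp 0) = W.cl Y 0 := h.zero
  rwa [h2, map_zero, map_zero] at h1

lemma Specializes.divPow (h : Specializes W' X D W Y E sp) (i : ℕ) (z : X.Cycles) :
    W.cl Y (sp (H914.divPow ops' D i z)) = W.cl Y (H914.divPow ops E i (sp z)) := by
  induction i with
  | zero => rfl
  | succ i ih =>
    have h1 : H914.divPow ops' D (i + 1) z = ops'.mul D (H914.divPow ops' D i z) := by
      rw [H914.divPow, Function.iterate_succ', Function.comp_apply]; rfl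
    have h2 : H914.divPow ops E (i + 1) (sp z) = ops.mul E (H914.divPow ops E i (sp z)) := by
      rw [H914.divPow, Function.iterate_succ', Function.comp_apply]; rfl
    have h3 : W.cl Y (sp D) = W.cl Y E := h.divisor
    rw [h1, h2, h.cl_mul, ih, h3, W.cl_mul]

/-- **The standard conjecture of Hodge type passes from the special to the generic fibre.** -/
theorem Specializes.hodgeType (h : Specializes W' X D W Y E sp) (hD : X.IsCyc 1 D)
    (hE : Y.IsCyc 1 E) (hH : HodgeType W Y E) : HodgeType W' X D := by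
  intro j hj z hz hprim hne
  have hn := h.dim_eq
  have hspz := h.isCyc j z hz
  have h1 : W.cl Y (H914.divPow ops E (Y.dim - 2 * j + 1) (sp z)) = 0 := by
    rw [hn, ← h.divPow]
    exact (h.cl_eq_zero (divPow_isCyc hD hz _)).2 hprim
  have h2 : W.cl Y (sp z) ≠ 0 := fun h0 => hne ((h.cl_eq_zero hz).1 h0)
  have h3 := hH j (by omega) (sp z) hspz h1 h2
  have hmul : X.IsCyc X.dim (ops'.mul z (H914.divPow ops' D (X.dim - 2 * j) z)) := by
    have h4 := ops'.mul_mem hz (divPow_isCyc (ops := ops') hD hz (X.dim - 2 * j))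
    rwa [show j + (X.dim - 2 * j + j) = X.dim by omega] at h4
  rw [← h.degree _ hmul]
  have h5 : (Y.V.degCycle (ops.mul (sp z) (H914.divPow ops E (Y.dim - 2 * j) (sp z))) : W.K) =
      (Y.V.degCycle (sp (ops'.mul z (H914.divPow ops' D (X.dim - 2 * j) z))) : W.K) := by
    have h6 := h.isCyc _ _ hmul
    have h8 := ops.mul_mem hspz (divPow_isCyc (ops := ops) hE hspz (Y.dim - 2 * j))
    rw [show j + (Y.dim - 2 * j + j) = Y.dim by omega] at h8
    rw [← W.tr_cl h8, ← W.tr_cl (by rw [hn]; exact h6), h.cl_mul, h.divPow, W.cl_mul, hn]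
  have h7 := Rat.cast_injective h5
  rw [← h7]
  exact h3

/-- The transfer. -/
theorem trueIfSpecializes {P : Polarized 𝒱'} {Q : Polarized 𝒱} (hP : P.X.IsCyc 1 P.D)
    (hQ : Q.X.IsCyc 1 Q.D) (hH : HodgeType W Q.X Q.D) : TrueIfSpecializes W' P W Q := by
  intro sp h
  have h1 := h.hodgeType hP hQ hH
  exact ⟨h1, fun hA => homEqNum_of_hodgeType hP hA h1⟩

end Two

end Pool.Agent.L0h13.SP
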